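import Pool.Agent.Helper22.LP.P3
import Pool.Agent.Helper22.LP.P4
import Pool.Agent.Helper60.LQ.P5T
import Pool.Agent.Helper22.LP.Main

/-!
# LQ: the count in the lattice coordinates is bounded by averages over `α` of the sums `LS` at two radii (as `lp_local` of helper22)
-/

open MeasureTheory Real Set Filter Topology

set_option autoImplicit false

namespace Pool.Agent.Helper60.LQ

open Pool.Agent.Helper22.AE
open Pool.Agent.Helper22.AC (cntc ga)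
open Pool.Agent.Helper92.GC (dt sqa)
open Pool.Agent.Helper22.OV (o3_k0_nonneg o3_rho_cont)
open Pool.Agent.Helper22.LP

private lemma mul_supp {G : ℝ → ℝ} (hG : IsSupp G) {r : ℝ} (hr : 0 < r) : IsSupp (fun θ => r * G θ) := by
  have := rot_isSupp hG hr 0
  simpa using this

private lemma mul_dd (G : ℝ → ℝ) (r θ : ℝ) : deriv (fun θ => r * G θ) θ = r * deriv G θ := by
  rw [deriv_const_mul_field]

private lemma mul_ddd (G : ℝ → ℝ) (r θ : ℝ) : deriv (deriv (fun θ => r * G θ)) θ = r * deriv (deriv G) θ := by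
  have : deriv (fun θ => r * G θ) = fun θ => r * deriv G θ := funext (mul_dd G r)
  rw [this, deriv_const_mul_field]

private lemma mul_rho (G : ℝ → ℝ) (r θ : ℝ) : rho (fun θ => r * G θ) θ = r * rho G θ := by
  unfold rho
  rw [mul_ddd]
  ring

private lemma mul_ga (G : ℝ → ℝ) (r α t : ℝ) : ga (fun θ => r * G θ) α t = r * ga G α t := by
  unfold ga
  rw [mul_dd]
  ring

/-- a block -/
private lemma blk {H : ℝ → ℝ} (hH : IsSupp H) {f : Fr} (hf : fdet f ≠ 0) {α₀ : ℝ} (ha0 : 0 < α₀) (ha1 : α₀ < π / 2)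
    {m M : ℝ} (hm : 0 < m) (hmk : ∀ N : ℕ, ∀ k ∈ sqa N, m * N ≤ nr (fk f k)) (hM1 : 1 ≤ M) (hM : ∀ t, |rho H t| ≤ M)
    {N : ℕ} (hN : 1 ≤ N) {R₀ r : ℝ} (hR : 1 ≤ R₀) (hr : r ∈ Icc (R₀ / 2) (4 * R₀)) {g : ℝ → ℝ} (hg : IntegrableOn g (Icc (-α₀) α₀))
    (hF : ∀ α ∈ Icc (-α₀) α₀, ∀ c : ℝ × ℝ,
        ‖LS f (hom (ga H α)) (wr H α) 1 N r c‖ ≤ g α ∧ ‖LS f (hom (ga H α)) (fun _ => 1) 2 N r c‖ ≤ g α) (c : ℝ × ℝ) :
    ‖∑ k ∈ sqa N, ftr (fun θ => r * H θ) (fk f k) * ee (dt k c)‖ ≤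
      (15 + 128 * π * (M * (1 / m)) / sin α₀ ^ 2 + 32 * π * (1 / m) ^ 2 / sin α₀ ^ 2) *
        (R₀ ^ (1 / 2 : ℝ) * (N : ℝ) ^ (-(3 / 2) : ℝ) * (∫ α in Icc (-α₀) α₀, k0 (1 / sqrt (R₀ * N)) α * g α) + 1) := by
  have hpi := Real.pi_pos
  have hR0 : 0 < R₀ := by linarith
  have hr0 : 0 < r := by linarith [hr.1]
  have hN0 : (0 : ℝ) < N := by exact_mod_cast hN
  have hsin : 0 < sin α₀ := sin_pos_of_pos_of_lt_pi ha0 (by linarith)
  set β : ℝ := 1 / sqrt (R₀ * N) with hβd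
  have hsq : 0 < sqrt (R₀ * N) := sqrt_pos.2 (by positivity)
  have hβ : 0 < β := by positivity
  have hrp : ∀ t, rho H (t + 2 * π) = rho H t := by
    intro t
    have := Pool.Agent.Helper22.OV.rho_per_o3 hH.per 0 0 t
    simpa using this
  have h1 := vkr_bound (mul_supp hH hr0) (fun k => fk f k) (fun k => ee (dt k c)) (sqa N)
    (fun k hk => fk_ne hf (sqa_ne hN hk)) hβ
  have e1 : ∀ α, ∑ k ∈ sqa N, ee (dt k c) / (nr (fk f k) : ℂ) * ((rho (fun θ => r * H θ) (tr (fk f k) + α) : ℝ) : ℂ) *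
      ee (-(nr (fk f k) * ga (fun θ => r * H θ) α (tr (fk f k)))) =
      ((r / N : ℝ) : ℂ) * TR f 1 N (fun t => rho H (t + α)) (ga H α) r c := by
    intro α
    unfold TR
    rw [Finset.mul_sum]
    refine Finset.sum_congr rfl fun k hk => ?_
    have h2 : (nr (fk f k) : ℂ) ≠ 0 := by exact_mod_cast (nr_pos (fk_ne hf (sqa_ne hN hk))).ne'
    have h3 : (N : ℂ) ≠ 0 := by exact_mod_cast hN0.ne'
    rw [mul_rho, mul_ga]
    push_cast
    field_simp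
  have e2 : ∀ α, ∑ k ∈ sqa N, ee (dt k c) / (nr (fk f k) : ℂ) ^ 2 *
      ee (-(nr (fk f k) * ga (fun θ => r * H θ) α (tr (fk f k)))) =
      ((1 / (N : ℝ) ^ 2 : ℝ) : ℂ) * TR f 2 N (fun _ => 1) (ga H α) r c := by
    intro α
    unfold TR
    rw [Finset.mul_sum]
    refine Finset.sum_congr rfl fun k hk => ?_
    have h2 : (nr (fk f k) : ℂ) ≠ 0 := by exact_mod_cast (nr_pos (fk_ne hf (sqa_ne hN hk))).ne'
    have h3 : (N : ℂ) ≠ 0 := by exact_mod_cast hN0.ne'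
    rw [mul_ga]
    push_cast
    field_simp
  simp only [e1, e2, norm_mul, Complex.norm_real] at h1
  have n1 : ‖r / (N : ℝ)‖ = r / N := by rw [Real.norm_eq_abs, abs_of_pos (by positivity)]
  have n2 : ‖1 / (N : ℝ) ^ 2‖ = 1 / (N : ℝ) ^ 2 := by rw [Real.norm_eq_abs, abs_of_pos (by positivity)]
  rw [n1, n2] at h1
  set I : ℝ := ∫ α in Icc (-α₀) α₀, k0 β α * g α with hI
  have hg0 : ∀ α ∈ Icc (-α₀) α₀, 0 ≤ g α := fun α hα => (norm_nonneg _).trans (hF α hα 0).1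
  have hI0 : 0 ≤ I := by
    rw [hI]
    exact setIntegral_nonneg measurableSet_Icc fun α hα => mul_nonneg (o3_k0_nonneg hβ α) (hg0 α hα)
  have hrc := o3_rho_cont hH.smooth
  have t1 := TR_int hH hf ha0 ha1 1 hN (w := fun α t => rho H (t + α)) (fun t => hrc.comp (by fun_prop))
    (fun α t => by
      show rho H (t + 2 * π + α) = rho H (t + α)
      rw [show t + 2 * π + α = t + α + 2 * π by ring, hrp])
    (fun α t => by
      show rho H (t + (α + π)) = rho H (t + π + α)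
      congr 1
      ring)
    (fun α t => by
      show rho H (t + (α - π)) = rho H (t + π + α)
      rw [← hrp (t + (α - π))]
      congr 1
      ring) (E := 16 * (N : ℝ) ^ 2 * (M * (1 / m) ^ 1)) (r := r) c
    (fun α => TR_triv hm hmk 1 hN (fun t => hM _) _ r c) hβ hg (fun α hα => (hF α hα (-c)).1)
  have t2 := TR_int hH hf ha0 ha1 2 hN (w := fun _ _ => 1) (fun t => continuous_const)
    (fun α t => rfl) (fun α t => rfl) (fun α t => rfl) (E := 16 * (N : ℝ) ^ 2 * (1 * (1 / m) ^ 2)) (r := r) c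
    (fun α => TR_triv hm hmk 2 hN (fun t => by simp) _ r c) hβ hg (fun α hα => by
      have := (hF α hα (-c)).2
      simpa using this)
  rw [← hI] at t1 t2
  rw [pow_one] at t1
  have i1 : ∀ T : ℝ → ℝ, (∫ α in (-π)..π, k0 β α * (r / N * T α)) = r / N * ∫ α in (-π)..π, k0 β α * T α := by
    intro T
    rw [← intervalIntegral.integral_const_mul]
    congr 1
    funext α
    ring
  have i2 : ∀ T : ℝ → ℝ, (∫ α in (-π)..π, k0 β α * (1 / (N : ℝ) ^ 2 * T α)) = 1 / (N : ℝ) ^ 2 * ∫ α in (-π)..π, k0 β α * T α := by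
    intro T
    rw [← intervalIntegral.integral_const_mul]
    congr 1
    funext α
    ring
  rw [i1, i2] at h1
  -- the powers
  set P : ℝ := R₀ ^ (1 / 2 : ℝ) * (N : ℝ) ^ (-(3 / 2) : ℝ) with hP
  have hP0 : 0 ≤ P := by positivity
  have hsq2 : sqrt (R₀ * N) = R₀ ^ (1 / 2 : ℝ) * (N : ℝ) ^ (1 / 2 : ℝ) := by
    rw [sqrt_eq_rpow, mul_rpow hR0.le hN0.le]
  have hq1 : β * (r / N) ≤ 4 * P := by
    have h2 : β * (r / N) ≤ β * (4 * R₀ / N) := by gcongr; exact hr.2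
    refine h2.trans (le_of_eq ?_)
    have h3 : R₀ = R₀ ^ (1 / 2 : ℝ) * R₀ ^ (1 / 2 : ℝ) := by
      rw [← rpow_add hR0]
      norm_num
    have h4 : (N : ℝ) ^ (-(3 / 2) : ℝ) = 1 / ((N : ℝ) ^ (1 / 2 : ℝ) * N) := by
      rw [rpow_neg hN0.le, one_div]
      congr 1
      rw [← rpow_add_one hN0.ne']
      norm_num
    rw [hβd, hP, hsq2, h4]
    have h5 : 0 < R₀ ^ (1 / 2 : ℝ) := by positivity
    have h6 : 0 < (N : ℝ) ^ (1 / 2 : ℝ) := by positivity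
    field_simp
    nlinarith [h3]
  have hq2 : 1 / β * (1 / (N : ℝ) ^ 2) = P := by
    rw [hβd, one_div_one_div, hsq2, hP, mul_assoc]
    congr 1
    rw [show (-(3 / 2) : ℝ) = 1 / 2 - 2 by norm_num, rpow_sub hN0]
    rw [show ((N : ℝ) ^ (2 : ℝ)) = (N : ℝ) ^ (2 : ℕ) by rw [← rpow_natCast]; norm_num]
    ring
  have hq3 : β * (r / N) * (β * (N : ℝ) ^ 2) ≤ 4 := by
    have h2 : β * β = 1 / (R₀ * N) := by
      rw [hβd, div_mul_div_comm, mul_self_sqrt (by positivity), one_mul]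
    have h3 : β * (r / N) * (β * (N : ℝ) ^ 2) = (β * β) * (r / N * (N : ℝ) ^ 2) := by ring
    rw [h3, h2]
    have h4 : r / N * (N : ℝ) ^ 2 = r * N := by field_simp
    rw [h4, one_div, inv_mul_le_iff₀ (by positivity)]
    nlinarith [hr.2]
  have hq4 : 1 / β * (1 / (N : ℝ) ^ 2) * (β * (N : ℝ) ^ 2) = 1 := by
    field_simp
  have hs2 : 0 < sin α₀ ^ 2 := by positivity
  have u1 : β * (r / N * ∫ α in (-π)..π, k0 β α * ‖TR f 1 N (fun t => rho H (t + α)) (ga H α) r c‖) ≤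
      12 * (P * I) + 128 * π * (M * (1 / m)) / sin α₀ ^ 2 := by
    have h2 := mul_le_mul_of_nonneg_left t1 (show 0 ≤ β * (r / N) by positivity)
    have h3 : β * (r / N) * (3 * I + 2 * π * (β / sin α₀ ^ 2 * (16 * (N : ℝ) ^ 2 * (M * (1 / m))))) =
        3 * ((β * (r / N)) * I) + 32 * π * (M * (1 / m)) / sin α₀ ^ 2 * (β * (r / N) * (β * (N : ℝ) ^ 2)) := by ring
    have h4 : (β * (r / N)) * I ≤ 4 * P * I := mul_le_mul_of_nonneg_right hq1 hI0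
    have h5 := mul_le_mul_of_nonneg_left hq3 (show 0 ≤ 32 * π * (M * (1 / m)) / sin α₀ ^ 2 by positivity)
    rw [h3] at h2
    rw [← mul_assoc]
    have h6 : 32 * π * (M * (1 / m)) / sin α₀ ^ 2 * 4 = 128 * π * (M * (1 / m)) / sin α₀ ^ 2 := by ring
    linarith
  have u2 : 1 / β * (1 / (N : ℝ) ^ 2 * ∫ α in (-π)..π, k0 β α * ‖TR f 2 N (fun _ => 1) (ga H α) r c‖) ≤
      3 * (P * I) + 32 * π * (1 / m) ^ 2 / sin α₀ ^ 2 := by
    have h2 := mul_le_mul_of_nonneg_left t2 (show 0 ≤ 1 / β * (1 / (N : ℝ) ^ 2) by positivity)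
    have h3 : 1 / β * (1 / (N : ℝ) ^ 2) * (3 * I + 2 * π * (β / sin α₀ ^ 2 * (16 * (N : ℝ) ^ 2 * (1 * (1 / m) ^ 2)))) =
        3 * ((1 / β * (1 / (N : ℝ) ^ 2)) * I) + 32 * π * (1 / m) ^ 2 / sin α₀ ^ 2 * (1 / β * (1 / (N : ℝ) ^ 2) * (β * (N : ℝ) ^ 2)) := by ring
    rw [h3, hq4, hq2] at h2
    rw [← mul_assoc, hq2]
    linarith
  have hA : 0 ≤ 128 * π * (M * (1 / m)) / sin α₀ ^ 2 := by positivity
  have hB : 0 ≤ 32 * π * (1 / m) ^ 2 / sin α₀ ^ 2 := by positivity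
  have hPI : 0 ≤ P * I := mul_nonneg hP0 hI0
  have h5 := mul_nonneg hA hPI
  have h6 := mul_nonneg hB hPI
  calc _ ≤ _ := h1
    _ ≤ (12 * (P * I) + 128 * π * (M * (1 / m)) / sin α₀ ^ 2) + (3 * (P * I) + 32 * π * (1 / m) ^ 2 / sin α₀ ^ 2) := add_le_add u1 u2
    _ ≤ (15 + 128 * π * (M * (1 / m)) / sin α₀ ^ 2 + 32 * π * (1 / m) ^ 2 / sin α₀ ^ 2) * (P * I + 1) := by nlinarith

/-- as `lp_main`, for one radius `R`; the sums are needed only for the two radii `R ± κ R₀^(-τ)` -/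
theorem lp_two {H : ℝ → ℝ} (hH : IsSupp H) {f : Fr} (hf : fdet f ≠ 0) {τ e2 α₀ : ℝ} (h0 : 0 < τ) (h1 : τ < 1) (he2 : 0 < e2)
    (ha0 : 0 < α₀) (ha1 : α₀ < π / 2) : ∃ C R₁ κ : ℝ, 0 < C ∧ 1 ≤ R₁ ∧ 0 < κ ∧ ∀ R₀ : ℝ, R₁ ≤ R₀ → ∀ n1 : ℕ, R₀ ^ (τ + e2) ≤ 2 ^ n1 →
      ∀ R ∈ Icc R₀ (2 * R₀), ∀ g : ℕ → ℝ → ℝ, (∀ n < n1, IntegrableOn (g n) (Icc (-α₀) α₀)) →
      (∀ n < n1, ∀ α ∈ Icc (-α₀) α₀, ∀ r ∈ Icc (R₀ / 2) (4 * R₀), (r = R + κ * R₀ ^ (-τ) ∨ r = R - κ * R₀ ^ (-τ)) → ∀ c : ℝ × ℝ,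
        ‖LS f (hom (ga H α)) (wr H α) 1 (2 ^ n) r c‖ ≤ g n α ∧ ‖LS f (hom (ga H α)) (fun _ => 1) 2 (2 ^ n) r c‖ ≤ g n α) →
      ∀ c : ℝ × ℝ, |cntc (Hf H f) c R - area (Hf H f) * R ^ 2| ≤
        C * (R₀ ^ (1 - τ) + ∑ n ∈ Finset.range n1, (R₀ ^ (1 / 2 : ℝ) * ((2 ^ n : ℕ) : ℝ) ^ (-(3 / 2) : ℝ) *
          (∫ α in Icc (-α₀) α₀, k0 (1 / sqrt (R₀ * (2 ^ n : ℕ))) α * g n α) + 1)) := by
  have hpi := Real.pi_pos
  obtain ⟨C0, R1, κ, hR1, hκ, hd⟩ := dil_blocks_two (Hf_isSupp hH hf) h0 h1 he2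
  obtain ⟨m, hm, hmk⟩ := fk_low hf
  obtain ⟨M, hM1, hM⟩ := Pool.Agent.Helper22.OV.rho_bd_o3 hH
  have hM' : ∀ t, |rho H t| ≤ M := by
    intro t
    have := hM t 0 (by simp)
    simpa using this
  set C1 : ℝ := |fdet f| * (15 + 128 * π * (M * (1 / m)) / sin α₀ ^ 2 + 32 * π * (1 / m) ^ 2 / sin α₀ ^ 2) with hC1
  have hsin : 0 < sin α₀ := sin_pos_of_pos_of_lt_pi ha0 (by linarith)
  have hM0 : 0 ≤ M := by linarith
  have hC10 : 0 ≤ C1 := by positivity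
  refine ⟨|C0| + C1 + 1, max R1 (max 1 κ), κ, by positivity, (le_max_left _ _).trans (le_max_right _ _), hκ, ?_⟩
  intro R₀ hR₀ n1 hn1 R hR g hg hF c
  have hR1' : R1 ≤ R₀ := (le_max_left _ _).trans hR₀
  have hRo : 1 ≤ R₀ := ((le_max_left _ _).trans (le_max_right _ _)).trans hR₀
  have hRk : κ ≤ R₀ := ((le_max_right _ _).trans (le_max_right _ _)).trans hR₀
  have hR0 : 0 < R₀ := by linarith
  have hpw0 : 0 < R₀ ^ (-τ) := Real.rpow_pos_of_pos hR0 _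
  have hpw1 : R₀ ^ (-τ) ≤ 1 := Real.rpow_le_one_of_one_le_of_nonpos hRo (by linarith)
  have hkp0 : 0 < κ * R₀ ^ (-τ) := by positivity
  have hkp : κ * R₀ ^ (-τ) ≤ R₀ := by nlinarith
  set T : ℕ → ℝ := fun n => R₀ ^ (1 / 2 : ℝ) * ((2 ^ n : ℕ) : ℝ) ^ (-(3 / 2) : ℝ) *
          (∫ α in Icc (-α₀) α₀, k0 (1 / sqrt (R₀ * (2 ^ n : ℕ))) α * g n α) + 1 with hT
  have hT0 : ∀ n ∈ Finset.range n1, 0 ≤ T n := by
    intro n hn
    have h3 : 0 ≤ ∫ α in Icc (-α₀) α₀, k0 (1 / sqrt (R₀ * (2 ^ n : ℕ))) α * g n α := by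
      refine setIntegral_nonneg measurableSet_Icc fun α hα => mul_nonneg (o3_k0_nonneg (by positivity) α) ?_
      exact (norm_nonneg _).trans (hF n (Finset.mem_range.1 hn) α hα (R + κ * R₀ ^ (-τ)) ⟨by linarith [hR.1], by linarith [hR.2]⟩ (Or.inl rfl) 0).1
    have h4 : 0 ≤ R₀ ^ (1 / 2 : ℝ) * ((2 ^ n : ℕ) : ℝ) ^ (-(3 / 2) : ℝ) := by positivity
    have := mul_nonneg h4 h3
    simp only [hT]
    linarith
  have hmain := hd R₀ hR1' n1 hn1 (fun n => C1 * T n) R hR (by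
    intro n hn r hr hrR c'
    have e : ∑ k ∈ sqa (2 ^ n), ft (fun θ => r * Hf H f θ) k * ee (dt k c') =
        ((|fdet f| : ℝ) : ℂ) * ∑ k ∈ sqa (2 ^ n), ftr (fun θ => r * H θ) (fk f k) * ee (dt k c') := by
      rw [Finset.mul_sum]
      refine Finset.sum_congr rfl fun k _ => ?_
      rw [ft_lin hH.per hf]
      ring
    rw [e, norm_mul, Complex.norm_real, Real.norm_eq_abs, abs_abs]
    have hb := blk hH hf ha0 ha1 hm hmk hM1 hM' (N := 2 ^ n) Nat.one_le_two_pow hRo hr (hg n hn)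
      (fun α hα c => hF n hn α hα r hr hrR c) c'
    have h2 := mul_le_mul_of_nonneg_left hb (abs_nonneg (fdet f))
    refine h2.trans (le_of_eq ?_)
    simp only [hC1, hT]
    ring) c
  refine hmain.trans ?_
  rw [← Finset.mul_sum]
  have h3 : 0 ≤ ∑ n ∈ Finset.range n1, T n := Finset.sum_nonneg hT0
  have h4 : 0 ≤ R₀ ^ (1 - τ) := by positivity
  have h5 := mul_le_mul_of_nonneg_right (le_abs_self C0) h4
  have h6 : 0 ≤ |C0| := abs_nonneg _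
  have h7 := mul_nonneg h6 h3
  have h8 := mul_nonneg hC10 h4
  nlinarith

end Pool.Agent.Helper60.LQ
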